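import Pool.Agent.GP.Gelfond

/-!
# Gelfond's criterion, growing degrees

If for all large `n` there is a nonzero integer polynomial of degree `≤ C n ^ a`, with coefficients
`≤ exp (C n ^ b)`, `a ≤ b`, of absolute value `≤ exp (-(c n ^ g))` at `θ`, where `a + b < g` and `c > 0`,
then `θ` is algebraic.
-/

set_option autoImplicit false

namespace Pool.Agent.Helper86

open Polynomial Filter

private theorem factorial_le_exp (m : ℕ) : (m.factorial : ℝ) ≤ Real.exp ((m : ℝ) ^ 2) := by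
  have h1 : (m.factorial : ℝ) ≤ (m : ℝ) ^ m := by exact_mod_cast Nat.factorial_le_pow m
  have h2 : (m : ℝ) ≤ Real.exp m := by
    have := Real.add_one_le_exp (m : ℝ)
    linarith
  calc (m.factorial : ℝ) ≤ (m : ℝ) ^ m := h1
    _ ≤ (Real.exp m) ^ m := pow_le_pow_left₀ (Nat.cast_nonneg m) h2 m
    _ = Real.exp ((m : ℝ) ^ 2) := by rw [← Real.exp_nat_mul, pow_two]

private theorem KK_le (θ : ℂ) : ∃ c : ℝ, 0 ≤ c ∧ ∀ d : ℕ, GP.KK θ d ≤ Real.exp (c * (d : ℝ) ^ 2) := by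
  refine ⟨4 + 2 * max 1 ‖θ‖ + 4, by positivity, fun d => ?_⟩
  unfold GP.KK
  have hd2 : (d : ℝ) ≤ (d : ℝ) ^ 2 := by
    have : d ≤ d ^ 2 := Nat.le_self_pow (by norm_num) d
    exact_mod_cast this
  have h1 : ((2 * d).factorial : ℝ) ≤ Real.exp (4 * (d : ℝ) ^ 2) := by
    refine (factorial_le_exp (2 * d)).trans (le_of_eq ?_)
    congr 1
    push_cast
    ring
  have h2 : max 1 ‖θ‖ ^ (2 * d) ≤ Real.exp (2 * max 1 ‖θ‖ * (d : ℝ) ^ 2) := by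
    have h3 : max 1 ‖θ‖ ≤ Real.exp (max 1 ‖θ‖) := by
      have := Real.add_one_le_exp (max 1 ‖θ‖)
      linarith
    have h4 : 0 ≤ max 1 ‖θ‖ := zero_le_one.trans (le_max_left _ _)
    calc max 1 ‖θ‖ ^ (2 * d) ≤ (Real.exp (max 1 ‖θ‖)) ^ (2 * d) := pow_le_pow_left₀ h4 h3 _
      _ = Real.exp (((2 * d : ℕ) : ℝ) * max 1 ‖θ‖) := by rw [← Real.exp_nat_mul]
      _ ≤ Real.exp (2 * max 1 ‖θ‖ * (d : ℝ) ^ 2) := by
        apply Real.exp_le_exp.2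
        push_cast
        nlinarith
  have h5 : (4 : ℝ) ^ (d * d) ≤ Real.exp (4 * (d : ℝ) ^ 2) := by
    have h6 : (4 : ℝ) ≤ Real.exp 4 := by
      have := Real.add_one_le_exp (4 : ℝ)
      linarith
    calc (4 : ℝ) ^ (d * d) ≤ (Real.exp 4) ^ (d * d) := pow_le_pow_left₀ (by norm_num) h6 _
      _ = Real.exp (4 * (d : ℝ) ^ 2) := by
        rw [← Real.exp_nat_mul]
        congr 1
        push_cast
        ring
  calc ((2 * d).factorial : ℝ) * (max 1 ‖θ‖ ^ (2 * d) * 4 ^ (d * d))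
      ≤ Real.exp (4 * (d : ℝ) ^ 2) * (Real.exp (2 * max 1 ‖θ‖ * (d : ℝ) ^ 2) *
          Real.exp (4 * (d : ℝ) ^ 2)) := by gcongr
    _ = Real.exp ((4 + 2 * max 1 ‖θ‖ + 4) * (d : ℝ) ^ 2) := by
      rw [← Real.exp_add, ← Real.exp_add]
      congr 1
      ring

/-- the resultant estimate in exponential form -/
private theorem res_exp (θ : ℂ) (C : ℝ) (hC : 0 ≤ C) (a b : ℕ) (hab : a ≤ b) :
    ∃ c : ℝ, 0 ≤ c ∧ ∀ n : ℕ, 1 ≤ n → ∀ d : ℕ, (d : ℝ) ≤ C * (n : ℝ) ^ a → ∀ m : ℝ, 0 ≤ m →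
      m ≤ ((d + 1) * Real.exp (C * (n : ℝ) ^ b)) ^ 2 →
      GP.KK θ d * m ^ d ≤ Real.exp (c * (n : ℝ) ^ (a + b)) := by
  obtain ⟨c0, hc0, hK⟩ := KK_le θ
  refine ⟨c0 * C ^ 2 + 2 * C ^ 2 + 2 * C ^ 2, by positivity, fun n hn d hd m hm0 hm => ?_⟩
  have hn1 : (1 : ℝ) ≤ n := by exact_mod_cast hn
  have hd0 : (0 : ℝ) ≤ d := Nat.cast_nonneg d
  have hd2 : (d : ℝ) ^ 2 ≤ C ^ 2 * (n : ℝ) ^ (a + b) := by
    calc (d : ℝ) ^ 2 ≤ (C * (n : ℝ) ^ a) ^ 2 := pow_le_pow_left₀ hd0 hd 2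
      _ = C ^ 2 * ((n : ℝ) ^ a * (n : ℝ) ^ a) := by ring
      _ ≤ C ^ 2 * ((n : ℝ) ^ a * (n : ℝ) ^ b) := by gcongr
      _ = C ^ 2 * (n : ℝ) ^ (a + b) := by rw [pow_add]
  have hdb : (d : ℝ) * (C * (n : ℝ) ^ b) ≤ C ^ 2 * (n : ℝ) ^ (a + b) := by
    calc (d : ℝ) * (C * (n : ℝ) ^ b) ≤ (C * (n : ℝ) ^ a) * (C * (n : ℝ) ^ b) := by gcongr
      _ = C ^ 2 * (n : ℝ) ^ (a + b) := by rw [pow_add]; ring
  have h1 : GP.KK θ d ≤ Real.exp (c0 * C ^ 2 * (n : ℝ) ^ (a + b)) := by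
    refine (hK d).trans (Real.exp_le_exp.2 ?_)
    calc c0 * (d : ℝ) ^ 2 ≤ c0 * (C ^ 2 * (n : ℝ) ^ (a + b)) := by gcongr
      _ = c0 * C ^ 2 * (n : ℝ) ^ (a + b) := by ring
  have h2 : m ^ d ≤ Real.exp ((2 * C ^ 2 + 2 * C ^ 2) * (n : ℝ) ^ (a + b)) := by
    have h3 : (d : ℝ) + 1 ≤ Real.exp d := Real.add_one_le_exp _
    calc m ^ d ≤ (((d + 1) * Real.exp (C * (n : ℝ) ^ b)) ^ 2) ^ d := pow_le_pow_left₀ hm0 hm d
      _ ≤ ((Real.exp d * Real.exp (C * (n : ℝ) ^ b)) ^ 2) ^ d := by gcongr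
      _ = Real.exp (2 * (d : ℝ) ^ 2 + 2 * (d * (C * (n : ℝ) ^ b))) := by
        rw [← Real.exp_add, ← pow_mul, ← Real.exp_nat_mul]
        congr 1
        push_cast
        ring
      _ ≤ Real.exp ((2 * C ^ 2 + 2 * C ^ 2) * (n : ℝ) ^ (a + b)) := by
        apply Real.exp_le_exp.2
        linarith
  calc GP.KK θ d * m ^ d ≤ Real.exp (c0 * C ^ 2 * (n : ℝ) ^ (a + b)) *
        Real.exp ((2 * C ^ 2 + 2 * C ^ 2) * (n : ℝ) ^ (a + b)) :=
        mul_le_mul h1 h2 (pow_nonneg hm0 _) (Real.exp_pos _).le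
    _ = Real.exp ((c0 * C ^ 2 + 2 * C ^ 2 + 2 * C ^ 2) * (n : ℝ) ^ (a + b)) := by
      rw [← Real.exp_add]
      congr 1
      ring

/-- powers beat smaller powers -/
private theorem pow_beats (e g : ℕ) (h : e < g) (C c : ℝ) (hc : 0 < c) :
    ∃ N : ℕ, 1 ≤ N ∧ ∀ n : ℕ, N ≤ n → C * (n : ℝ) ^ e < c * (n : ℝ) ^ g := by
  obtain ⟨N, hN⟩ := exists_nat_gt (C / c)
  refine ⟨max N 1, le_max_right _ _, fun n hn => ?_⟩
  have h1 : 1 ≤ n := (le_max_right _ _).trans hn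
  have h1' : (1 : ℝ) ≤ n := by exact_mod_cast h1
  have h2 : (N : ℝ) ≤ n := by exact_mod_cast (le_max_left _ _).trans hn
  have h3 : C < c * n := by
    rw [div_lt_iff₀ hc] at hN
    nlinarith
  have h4 : (n : ℝ) ^ (e + 1) ≤ (n : ℝ) ^ g := pow_le_pow_right₀ h1' h
  have h5 : 0 < (n : ℝ) ^ e := by positivity
  calc C * (n : ℝ) ^ e < c * n * (n : ℝ) ^ e := by gcongr
    _ = c * (n : ℝ) ^ (e + 1) := by ring
    _ ≤ c * (n : ℝ) ^ g := by gcongr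

theorem gelfond_grow (θ : ℂ) (a b g : ℕ) (hab : a ≤ b) (hg : a + b < g) (C c : ℝ) (hC : 0 ≤ C)
    (hc : 0 < c) (N₀ : ℕ)
    (h : ∀ n : ℕ, N₀ ≤ n → ∃ A : ℤ[X], A ≠ 0 ∧ (A.natDegree : ℝ) ≤ C * (n : ℝ) ^ a ∧
      (∀ i, |(A.coeff i : ℝ)| ≤ Real.exp (C * (n : ℝ) ^ b)) ∧
      ‖aeval θ A‖ ≤ Real.exp (-(c * (n : ℝ) ^ g))) :
    IsAlgebraic ℚ θ := by
  choose! A hA0 hAd hAc hAθ using h
  obtain ⟨c1, hc1, hres⟩ := res_exp θ C hC a b hab
  -- the degree bound as a natural number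
  have hdeg : ∀ n : ℕ, ((⌊C * (n : ℝ) ^ a⌋₊ : ℕ) : ℝ) ≤ C * (n : ℝ) ^ a := fun n =>
    Nat.floor_le (by positivity)
  have hAd' : ∀ n, N₀ ≤ n → (A n).natDegree ≤ ⌊C * (n : ℝ) ^ a⌋₊ := fun n hn =>
    Nat.le_floor (hAd n hn)
  have hmA : ∀ n, N₀ ≤ n → GP.mm (A n) ≤
      ((⌊C * (n : ℝ) ^ a⌋₊ : ℕ) + 1) * Real.exp (C * (n : ℝ) ^ b) := fun n hn =>
    GP.mm_le (hAd' n hn) (hAc n hn)
  -- prime powers
  have hpp : ∃ N₁, N₀ ≤ N₁ ∧ 1 ≤ N₁ ∧ ∀ n, N₁ ≤ n → ∃ (p : ℤ[X]) (i : ℕ) (D : ℤ[X]), Prime p ∧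
      p ^ i * D = A n ∧ ‖aeval θ (p ^ i)‖ < 1 ∧
      ‖aeval θ (p ^ i)‖ ≤ Real.exp (-(c / 2 * (n : ℝ) ^ g)) := by
    obtain ⟨N₁, hN₁, hN₁'⟩ := pow_beats (a + b) g hg (3 * c1) (c / 2) (by positivity)
    refine ⟨max N₀ N₁, le_max_left _ _, hN₁.trans (le_max_right _ _), fun n hn => ?_⟩
    have hn0 : N₀ ≤ n := (le_max_left _ _).trans hn
    have hn1 : N₁ ≤ n := (le_max_right _ _).trans hn
    have hn2 : 1 ≤ n := hN₁.trans hn1
    have hbeat := hN₁' n hn1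
    have hnn : (0 : ℝ) ≤ (n : ℝ) ^ (a + b) := by positivity
    have hng : (0 : ℝ) < (n : ℝ) ^ g := by
      have : (0 : ℝ) < n := by exact_mod_cast hn2
      positivity
    set e : ℝ := Real.exp (-(c1 * (n : ℝ) ^ (a + b))) with he
    have he0 : 0 < e := Real.exp_pos _
    have he1 : e ≤ 1 := by
      rw [he, Real.exp_le_one_iff]
      nlinarith
    have hsm : ‖aeval θ (A n)‖ < e ^ 3 := by
      refine (hAθ n hn0).trans_lt ?_
      rw [he, ← Real.exp_nat_mul]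
      apply Real.exp_lt_exp.2
      push_cast
      nlinarith
    have hH : ∀ f g : ℤ[X], f * g = A n → IsRelPrime f g →
        e ≤ max ‖aeval θ f‖ ‖aeval θ g‖ := by
      intro f g hfg hrel
      have hfg0 : f * g ≠ 0 := by rw [hfg]; exact hA0 n hn0
      have hf0 : f ≠ 0 := left_ne_zero_of_mul hfg0
      have hg0 : g ≠ 0 := right_ne_zero_of_mul hfg0
      have hdeg2 : f.natDegree + g.natDegree ≤ ⌊C * (n : ℝ) ^ a⌋₊ := by
        rw [← natDegree_mul hf0 hg0, hfg]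
        exact hAd' n hn0
      have h1 := GP.one_le_of_isRelPrime θ hf0 hg0 hrel (d := ⌊C * (n : ℝ) ^ a⌋₊) (by omega)
        (by omega) (le_max_left ‖aeval θ f‖ ‖aeval θ g‖) (le_max_right ‖aeval θ f‖ ‖aeval θ g‖)
      have h2 : GP.mm f * GP.mm g ≤
          ((((⌊C * (n : ℝ) ^ a⌋₊ : ℕ) : ℝ) + 1) * Real.exp (C * (n : ℝ) ^ b)) ^ 2 := by
        rw [← GP.mm_mul, hfg]
        refine (hmA n hn0).trans ?_
        have h3 : 1 ≤ (((⌊C * (n : ℝ) ^ a⌋₊ : ℕ) : ℝ) + 1) * Real.exp (C * (n : ℝ) ^ b) :=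
          (GP.one_le_mm (hA0 n hn0)).trans (hmA n hn0)
        nlinarith
      have h4 := hres n hn2 _ (hdeg n) (GP.mm f * GP.mm g)
        (mul_nonneg (mahlerMeasure_nonneg _) (mahlerMeasure_nonneg _)) h2
      have hm0 : 0 ≤ max ‖aeval θ f‖ ‖aeval θ g‖ := (norm_nonneg _).trans (le_max_left _ _)
      have h5 : 1 ≤ Real.exp (c1 * (n : ℝ) ^ (a + b)) * max ‖aeval θ f‖ ‖aeval θ g‖ :=
        h1.trans (mul_le_mul_of_nonneg_right h4 hm0)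
      rw [he, Real.exp_neg]
      rw [inv_le_iff_one_le_mul₀ (Real.exp_pos _), mul_comm]
      exact h5
    obtain ⟨p, i, D, hp, hD, hlt, hle⟩ := GP.exists_prime_pow (hA0 n hn0) θ he0 he1 hsm hH
    refine ⟨p, i, D, hp, hD, hlt.trans_le he1, ?_⟩
    rw [← le_div_iff₀ he0] at hle
    refine hle.trans ?_
    rw [div_le_iff₀ he0]
    refine (hAθ n hn0).trans ?_
    rw [he, ← Real.exp_add]
    apply Real.exp_le_exp.2
    nlinarith
  obtain ⟨N₁, hN₀₁, hN₁1, hN₁⟩ := hpp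
  choose! p i D hp hD hlt hle using hN₁
  have hq0 : ∀ n, N₁ ≤ n → p n ^ i n ≠ 0 := fun n hn => pow_ne_zero _ (hp n hn).ne_zero
  have hqd : ∀ n, N₁ ≤ n → (p n ^ i n).natDegree ≤ ⌊C * (n : ℝ) ^ a⌋₊ := fun n hn => by
    have h1 : (p n ^ i n) * D n ≠ 0 := by rw [hD n hn]; exact hA0 n (hN₀₁.trans hn)
    have h2 := natDegree_mul (hq0 n hn) (right_ne_zero_of_mul h1)
    rw [hD n hn] at h2
    have := hAd' n (hN₀₁.trans hn)
    omega
  have hqm : ∀ n, N₁ ≤ n → GP.mm (p n ^ i n) ≤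
      ((⌊C * (n : ℝ) ^ a⌋₊ : ℕ) + 1) * Real.exp (C * (n : ℝ) ^ b) := fun n hn => by
    have h1 : (p n ^ i n) * D n ≠ 0 := by rw [hD n hn]; exact hA0 n (hN₀₁.trans hn)
    have h2 := GP.mm_mul (p n ^ i n) (D n)
    rw [hD n hn] at h2
    have h3 := GP.one_le_mm (right_ne_zero_of_mul h1)
    have h4 := GP.one_le_mm (hq0 n hn)
    refine le_trans ?_ (hmA n (hN₀₁.trans hn))
    rw [h2]
    exact le_mul_of_one_le_right (zero_le_one.trans h4) h3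
  -- consecutive primes are associated
  have hcons : ∃ N₂, N₁ ≤ N₂ ∧ ∀ n, N₂ ≤ n → Associated (p n) (p (n + 1)) := by
    obtain ⟨N₂, hN₂, hN₂'⟩ := pow_beats (a + b) g hg (c1 * 2 ^ (a + b)) (c / 2) (by positivity)
    refine ⟨max N₁ N₂, le_max_left _ _, fun n hn => ?_⟩
    have hna : N₁ ≤ n := (le_max_left _ _).trans hn
    have hnb : N₁ ≤ n + 1 := by omega
    have hn1 : 1 ≤ n := hN₁1.trans hna
    have hn1' : (1 : ℝ) ≤ n := by exact_mod_cast hn1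
    by_contra hnot
    have hrel : IsRelPrime (p n ^ i n) (p (n + 1) ^ i (n + 1)) := by
      have h1 : IsRelPrime (p n) (p (n + 1)) := by
        have h2 := (hp n hna).irreducible
        have h3 := (hp (n + 1) hnb).irreducible
        rw [h2.isRelPrime_iff_not_dvd]
        intro hdvd
        exact hnot (h2.associated_of_dvd h3 hdvd)
      exact h1.pow
    have hmono : ∀ k : ℕ, (n : ℝ) ^ k ≤ ((n + 1 : ℕ) : ℝ) ^ k := fun k =>
      pow_le_pow_left₀ (by linarith) (by push_cast; linarith) k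
    have hE1 := hle n hna
    have hE2 : ‖aeval θ (p (n + 1) ^ i (n + 1))‖ ≤ Real.exp (-(c / 2 * (n : ℝ) ^ g)) := by
      refine (hle (n + 1) hnb).trans (Real.exp_le_exp.2 ?_)
      have := hmono g
      nlinarith
    have hfl : ⌊C * (n : ℝ) ^ a⌋₊ ≤ ⌊C * ((n + 1 : ℕ) : ℝ) ^ a⌋₊ :=
      Nat.floor_le_floor (mul_le_mul_of_nonneg_left (hmono a) hC)
    have hfl' : ((⌊C * (n : ℝ) ^ a⌋₊ : ℕ) : ℝ) ≤ ((⌊C * ((n + 1 : ℕ) : ℝ) ^ a⌋₊ : ℕ) : ℝ) := by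
      exact_mod_cast hfl
    have h1 := GP.one_le_of_isRelPrime θ (hq0 n hna) (hq0 (n + 1) hnb) hrel
      ((hqd n hna).trans hfl) (hqd (n + 1) hnb) hE1 hE2
    have h2 : GP.mm (p n ^ i n) * GP.mm (p (n + 1) ^ i (n + 1)) ≤
        ((((⌊C * ((n + 1 : ℕ) : ℝ) ^ a⌋₊ : ℕ) : ℝ) + 1) *
          Real.exp (C * ((n + 1 : ℕ) : ℝ) ^ b)) ^ 2 := by
      rw [pow_two]
      refine mul_le_mul ((hqm n hna).trans ?_) (hqm (n + 1) hnb) (mahlerMeasure_nonneg _)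
        (by positivity)
      have h3 : Real.exp (C * (n : ℝ) ^ b) ≤ Real.exp (C * ((n + 1 : ℕ) : ℝ) ^ b) :=
        Real.exp_le_exp.2 (mul_le_mul_of_nonneg_left (hmono b) hC)
      exact mul_le_mul (by linarith) h3 (Real.exp_pos _).le (by positivity)
    have h4 := hres (n + 1) (by omega) _ (hdeg (n + 1)) _
      (mul_nonneg (mahlerMeasure_nonneg _) (mahlerMeasure_nonneg _)) h2
    have h5 : (1 : ℝ) ≤ Real.exp (c1 * ((n + 1 : ℕ) : ℝ) ^ (a + b)) *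
        Real.exp (-(c / 2 * (n : ℝ) ^ g)) :=
      h1.trans (mul_le_mul_of_nonneg_right h4 (Real.exp_pos _).le)
    rw [← Real.exp_add] at h5
    have h6 : c1 * ((n + 1 : ℕ) : ℝ) ^ (a + b) ≤ c1 * 2 ^ (a + b) * (n : ℝ) ^ (a + b) := by
      rw [mul_assoc, ← mul_pow]
      apply mul_le_mul_of_nonneg_left _ hc1
      apply pow_le_pow_left₀ (by positivity)
      push_cast
      linarith
    have h7 := hN₂' n ((le_max_right _ _).trans hn)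
    have h8 : Real.exp (c1 * ((n + 1 : ℕ) : ℝ) ^ (a + b) + -(c / 2 * (n : ℝ) ^ g)) < 1 := by
      rw [Real.exp_lt_one_iff]
      linarith
    linarith
  obtain ⟨N₂, hN₁₂, hN₂⟩ := hcons
  have hass : ∀ n, N₂ ≤ n → Associated (p N₂) (p n) := by
    intro n hn
    induction n, hn using Nat.le_induction with
    | base => exact Associated.refl _
    | succ n hn ih => exact ih.trans (hN₂ n hn)
  have hnorm : ∀ n, N₂ ≤ n → ‖aeval θ (p n ^ i n)‖ = ‖aeval θ (p N₂)‖ ^ i n := by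
    intro n hn
    rw [map_pow, norm_pow]
    congr 1
    obtain ⟨u, hu⟩ := hass n hn
    rw [← hu, map_mul, norm_mul]
    obtain ⟨c, hc, hcu⟩ := Polynomial.isUnit_iff.1 u.isUnit
    rw [← hcu, aeval_C]
    rcases Int.isUnit_iff.1 hc with rfl | rfl <;> simp
  -- the prime is not constant
  have hpd : 0 < (p N₂).natDegree := by
    rw [Nat.pos_iff_ne_zero]
    intro h0
    obtain ⟨c, hc⟩ := natDegree_eq_zero.1 h0
    have hc0 : c ≠ 0 := by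
      rintro rfl
      exact (hp N₂ hN₁₂).ne_zero (by rw [← hc]; simp)
    have h1 : 1 ≤ ‖aeval θ (p N₂)‖ := by
      rw [← hc, aeval_C]
      simp only [algebraMap_int_eq, eq_intCast, Complex.norm_intCast]
      exact_mod_cast Int.one_le_abs hc0
    have h2 := hlt N₂ hN₁₂
    rw [hnorm N₂ le_rfl] at h2
    exact absurd h2 (not_lt.2 (one_le_pow₀ h1))
  have hi : ∀ n, N₂ ≤ n → (i n : ℝ) ≤ C * (n : ℝ) ^ a := by
    intro n hn
    have h1 := hqd n (hN₁₂.trans hn)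
    rw [natDegree_pow] at h1
    have h2 : (p n).natDegree = (p N₂).natDegree :=
      (natDegree_eq_of_degree_eq (degree_eq_degree_of_associated (hass n hn))).symm
    rw [h2] at h1
    have h3 : i n ≤ ⌊C * (n : ℝ) ^ a⌋₊ := (Nat.le_mul_of_pos_right _ hpd).trans h1
    exact le_trans (by exact_mod_cast h3) (hdeg n)
  -- conclusion
  by_cases hz : aeval θ (p N₂) = 0
  · have h1 : IsAlgebraic ℤ θ := ⟨p N₂, (hp N₂ hN₁₂).ne_zero, hz⟩
    exact (IsFractionRing.isAlgebraic_iff ℤ ℚ ℂ).1 h1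
  · exfalso
    have hz' : 0 < ‖aeval θ (p N₂)‖ := norm_pos_iff.2 hz
    set η : ℝ := -Real.log ‖aeval θ (p N₂)‖ with hη
    have hexp : ‖aeval θ (p N₂)‖ = Real.exp (-η) := by rw [hη, neg_neg, Real.exp_log hz']
    obtain ⟨N₃, hN₃, hN₃'⟩ := pow_beats a g (by omega) (max η 0 * C) (c / 2) (by positivity)
    have hn := hle (max N₂ N₃) (hN₁₂.trans (le_max_left _ _))
    rw [hnorm _ (le_max_left _ _), hexp, ← Real.exp_nat_mul] at hn
    have h2 := Real.exp_le_exp.1 hn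
    have h3 := hN₃' (max N₂ N₃) (le_max_right _ _)
    have h4 := hi (max N₂ N₃) (le_max_left _ _)
    have h5 : (i (max N₂ N₃) : ℝ) * η ≤ max η 0 * C * ((max N₂ N₃ : ℕ) : ℝ) ^ a := by
      calc (i (max N₂ N₃) : ℝ) * η ≤ (i (max N₂ N₃) : ℝ) * max η 0 :=
            mul_le_mul_of_nonneg_left (le_max_left _ _) (Nat.cast_nonneg _)
        _ ≤ (C * ((max N₂ N₃ : ℕ) : ℝ) ^ a) * max η 0 :=
            mul_le_mul_of_nonneg_right h4 (le_max_right _ _)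
        _ = max η 0 * C * ((max N₂ N₃ : ℕ) : ℝ) ^ a := by ring
    linarith

end Pool.Agent.Helper86
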